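import Mathlib

open Set Complex Filter Topology
open scoped Real ContDiff

namespace Pool.Agent.H.MP_65e1c6_gt

abbrev P := ℝ × ℝ

def per {E : Type*} (g : P → E) : Prop :=
  ∀ p, g (p + (2 * π, 0)) = g p ∧ g (p + (0, 2 * π)) = g p

lemma per.bdd {E : Type*} [NormedAddCommGroup E] {g : P → E} (h : per g) (hc : Continuous g) :
    ∃ M, 0 < M ∧ ∀ p, ‖g p‖ ≤ M := by
  obtain ⟨M, M0, hM⟩ := ((isCompact_Icc (a := ((0, 0) : P)) (b := (2 * π, 2 * π))).image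
    hc).isBounded.exists_pos_norm_le
  refine ⟨M, M0, fun ⟨x, y⟩ => ?_⟩
  have h1 : Function.Periodic (fun x => g (x, y)) (2 * π) := fun x => by simpa using (h (x, y)).1
  obtain ⟨x', hx, e1⟩ := h1.exists_mem_Ico₀ Real.two_pi_pos x
  have h2 : Function.Periodic (fun y => g (x', y)) (2 * π) := fun y => by simpa using (h (x', y)).2
  obtain ⟨y', hy, e2⟩ := h2.exists_mem_Ico₀ Real.two_pi_pos y
  rw [show g (x, y) = g (x', y') from e1.trans e2]
  exact hM _ ⟨(x', y'), ⟨⟨hx.1, hy.1⟩, ⟨hx.2.le, hy.2.le⟩⟩, rfl⟩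

lemma per.fd {g : P → ℂ} (h : per g) : per (fderiv ℝ g) := fun p => by
  rw [← fderiv_comp_add_right, ← fderiv_comp_add_right]
  simp only [(h _).1, (h _).2, and_self]

lemma corr (a b : P → ℂ) (ha : ContDiff ℝ ∞ a) (hb : ContDiff ℝ ∞ b) (pa : per a) (pb : per b)
    (l : P →L[ℝ] ℝ) (hl : ∀ (k : ℕ) (φ : ℝ → ℝ), Function.Periodic φ (2 * π) →
      per fun p => φ (k * l p)) (ε : ℝ) (hε : 0 < ε) :
    ∃ (k : ℕ) (G : P → ℂ), ContDiff ℝ ∞ G ∧ per G ∧ (∀ p, ‖G p‖ ≤ ε) ∧ ∀ p v, ‖v‖ ≤ 1 →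
      ‖fderiv ℝ G p v - l v * (a p * Real.sin (k * l p) + b p * Real.cos (2 * (k * l p)))‖ ≤ ε := by
  obtain ⟨M1, m1, h1⟩ := pa.bdd ha.continuous
  obtain ⟨M2, m2, h2⟩ := pb.bdd hb.continuous
  obtain ⟨M3, m3, h3⟩ := pa.fd.bdd (ha.continuous_fderiv (by simp))
  obtain ⟨M4, m4, h4⟩ := pb.fd.bdd (hb.continuous_fderiv (by simp))
  obtain ⟨k, hk⟩ := exists_nat_gt ((M1 + M2 + M3 + M4) / ε)
  have k0 : (0 : ℝ) < k := lt_trans (by positivity) hk
  rw [div_lt_iff₀ hε] at hk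
  have kc : (k : ℂ) ≠ 0 := by exact_mod_cast k0.ne'
  have cl : ContDiff ℝ ∞ fun p => (k : ℝ) * l p := contDiff_const.mul l.contDiff
  have key : ∀ (x y : ℂ) (c s : ℝ) (A B : ℝ), ‖x‖ ≤ A → ‖y‖ ≤ B → |c| ≤ 1 → |s| ≤ 1 →
      A + B ≤ k * ε → ‖(k : ℂ)⁻¹ * (-(x * c) + y * s / 2)‖ ≤ ε := by
    intro x y c s A B hx hy hc hs hk
    have := norm_add_le (-(x * c)) (y * s / 2)
    rw [norm_neg, norm_mul, norm_div, norm_mul, norm_real, norm_real, Real.norm_eq_abs,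
      Real.norm_eq_abs, Complex.norm_ofNat] at this
    rw [norm_mul, norm_inv, Complex.norm_natCast, inv_mul_le_iff₀ k0]
    nlinarith [norm_nonneg x, norm_nonneg y, abs_nonneg c, abs_nonneg s]
  refine ⟨k, fun p => (k : ℂ)⁻¹ * (-(a p * Real.cos (k * l p)) + b p * Real.sin (2 * (k * l p)) / 2),
    ?_, fun p => ?_, fun p => key _ _ _ _ _ _ (h1 p) (h2 p) (Real.abs_cos_le_one _)
      (Real.abs_sin_le_one _) (by linarith), fun p v hv => ?_⟩
  · exact contDiff_const.mul ((ha.mul (ofRealCLM.contDiff.comp cl.cos)).neg.add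
      ((hb.mul (ofRealCLM.contDiff.comp (contDiff_const.mul cl).sin)).div_const _))
  · have c1 := hl k _ Real.cos_periodic p
    have c2 := hl k (fun t => Real.sin (2 * t)) (fun t => by
      beta_reduce
      rw [mul_add, two_mul (2 * π), ← add_assoc, Real.sin_add_two_pi, Real.sin_add_two_pi]) p
    simp only [(pa p).1, (pa p).2, (pb p).1, (pb p).2, c1.1, c1.2, c2.1, c2.2, and_self]
  · have dl : HasFDerivAt (fun p => (k : ℝ) * l p) ((k : ℝ) • l) p := l.hasFDerivAt.const_mul _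
    have d1 := ((ha.differentiable (by simp)) p).hasFDerivAt.mul
      (ofRealCLM.hasFDerivAt.comp p dl.cos)
    have d2 := ((hb.differentiable (by simp)) p).hasFDerivAt.mul
      (ofRealCLM.hasFDerivAt.comp p (dl.const_mul 2).sin)
    have d := (d1.neg.add (d2.mul_const (2 : ℂ)⁻¹)).const_mul (k : ℂ)⁻¹
    have e := d.fderiv
    simp only [div_eq_mul_inv]
    erw [e]
    have n1 : ‖fderiv ℝ a p v‖ ≤ M3 := ((fderiv ℝ a p).le_opNorm v).trans
      ((mul_le_of_le_one_right (norm_nonneg _) hv).trans (h3 p))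
    have n2 : ‖fderiv ℝ b p v‖ ≤ M4 := ((fderiv ℝ b p).le_opNorm v).trans
      ((mul_le_of_le_one_right (norm_nonneg _) hv).trans (h4 p))
    convert key _ _ _ _ _ _ n1 n2 (Real.abs_cos_le_one (k * l p))
      (Real.abs_sin_le_one (2 * (k * l p))) (by linarith) using 2
    simp only [ContinuousLinearMap.smul_apply, ContinuousLinearMap.add_apply,
      ContinuousLinearMap.neg_apply, ContinuousLinearMap.comp_apply, ofRealCLM_apply,
      Function.comp, smul_eq_mul]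
    push_cast
    field_simp
    ring

lemma nsq (x e : ℂ) (ε : ℝ) (hx : ‖x‖ ≤ 1) (he : ‖e - x‖ ≤ ε) (h1 : ε ≤ 1) :
    |‖e‖ ^ 2 - ‖x‖ ^ 2| ≤ 3 * ε := by
  have a := (abs_norm_sub_norm_le e x).trans he
  rw [abs_le] at a ⊢
  constructor <;> nlinarith [norm_nonneg x, norm_nonneg e]

lemma step (f : P → ℂ) (hf : ContDiff ℝ ∞ f) (pf : per (fderiv ℝ f)) (l : P →L[ℝ] ℝ)
    (hl : ∀ (k : ℕ) (φ : ℝ → ℝ), Function.Periodic φ (2 * π) → per fun p => φ (k * l p))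
    (e e' : P) (n1 : ‖e‖ ≤ 1) (n2 : ‖e'‖ ≤ 1) (l1 : l e = 1) (l2 : l e' = 0) (η : ℝ)
    (h0 : 0 < η) (h1 : η ≤ 1 / 100) (hA : ∀ p, 1 - 3 * η ^ 2 ≤ ‖fderiv ℝ f p e‖ ^ 2 ∧
      ‖fderiv ℝ f p e‖ ^ 2 ≤ 1 - η ^ 2 / 2) :
    ∃ g : P → ℂ, ContDiff ℝ ∞ g ∧ per (fderiv ℝ g) ∧ ∀ p, ‖g p - f p‖ ≤ η ∧
      ‖fderiv ℝ g p e' - fderiv ℝ f p e'‖ ≤ η ^ 2 / 1000 ∧
      ‖fderiv ℝ g p e - fderiv ℝ f p e‖ ≤ 4 * η ∧
      |‖fderiv ℝ g p e‖ ^ 2 - (1 - 3 / 8 * η ^ 2)| ≤ η ^ 2 / 100 ∧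
      ((l p = 0 ∨ l p = π) → ∃ ρ : ℝ, 1 ≤ ρ ∧ ρ ≤ 1 + 2 * η ^ 2 ∧
        ‖fderiv ℝ g p e - ρ * fderiv ℝ f p e‖ ≤ η ^ 2 / 1000) := by
  set A : P → ℂ := fun p => fderiv ℝ f p e with hAd
  have cA : ContDiff ℝ ∞ A := (hf.fderiv_right (by simp)).clm_apply contDiff_const
  have pA : per A := fun p => by simp only [hAd, (pf p).1, (pf p).2, and_self]
  have e2 : 0 < η ^ 2 := by positivity
  have e3 : η ^ 2 ≤ 1 / 10000 := by nlinarith
  have A0 : ∀ p, 0 < ‖A p‖ ^ 2 := fun p => by linarith [(hA p).1]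
  set q : P → ℝ := fun p => 2 * ((1 - 3 / 8 * η ^ 2) / ‖A p‖ ^ 2 - 1) with hq
  have cq : ContDiff ℝ ∞ q := contDiff_const.mul
    ((contDiff_const.div (cA.norm_sq ℝ) fun p => (A0 p).ne').sub contDiff_const)
  have qA : ∀ p, q p * ‖A p‖ ^ 2 = 2 * (1 - 3 / 8 * η ^ 2 - ‖A p‖ ^ 2) := fun p => by
    have := div_mul_cancel₀ (1 - 3 / 8 * η ^ 2) (A0 p).ne'
    simp only [hq]; linear_combination 2 * this
  have q0 : ∀ p, 0 < q p := fun p =>
    (mul_pos_iff_of_pos_right (A0 p)).1 (by rw [qA]; linarith [(hA p).2])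
  have q1 : ∀ p, q p ≤ 6 * η ^ 2 := fun p => by
    have := qA p
    have := q0 p
    nlinarith [(hA p).1]
  have pq : per q := fun p => by simp only [hq, (pA p).1, (pA p).2, and_self]
  obtain ⟨k, G, g1, g2, g3, g4⟩ := corr (fun p => I * (√(q p) : ℝ) * A p)
    (fun p => (q p / 4 : ℝ) * A p)
    ((contDiff_const.mul (ofRealCLM.contDiff.comp (cq.sqrt fun p => (q0 p).ne'))).mul cA)
    ((ofRealCLM.contDiff.comp (cq.div_const 4)).mul cA)
    (fun p => by simp only [(pA p).1, (pA p).2, (pq p).1, (pq p).2, and_self])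
    (fun p => by simp only [(pA p).1, (pA p).2, (pq p).1, (pq p).2, and_self])
    l hl (η ^ 2 / 1000) (by positivity)
  have fd : ∀ p, fderiv ℝ (f + G) p = fderiv ℝ f p + fderiv ℝ G p := fun p =>
    fderiv_add ((hf.differentiable (by simp)) p) ((g1.differentiable (by simp)) p)
  refine ⟨f + G, hf.add g1, fun p => by simp only [fd, (pf p).1, (pf p).2, (g2.fd p).1,
    (g2.fd p).2, and_self], fun p => ?_⟩
  have a1 := g4 p e n1
  have a2 := g4 p e' n2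
  rw [l1, ofReal_one, one_mul] at a1
  rw [l2, ofReal_zero, zero_mul, sub_zero] at a2
  obtain ⟨s, hs⟩ : ∃ s, s = √(q p) := ⟨_, rfl⟩
  have s0 : 0 ≤ s := hs ▸ Real.sqrt_nonneg _
  have s2 : s ^ 2 = q p := hs ▸ Real.sq_sqrt (q0 p).le
  have s3 : s ≤ 5 / 2 * η := by nlinarith [q1 p]
  have nA : ‖A p‖ ≤ 1 := by nlinarith [(hA p).2, norm_nonneg (A p)]
  set t := k * l p
  set w : ℂ := I * s * Real.sin t + (q p / 4 : ℝ) * Real.cos (2 * t) with hw
  have a3 : ‖fderiv ℝ (f + G) p e - (1 + w) * A p‖ ≤ η ^ 2 / 1000 := by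
    convert a1 using 2
    rw [fd, ContinuousLinearMap.add_apply, hw, hs]; ring
  have nw : ‖w‖ ≤ 3 * η := by
    have := norm_add_le (I * s * Real.sin t) ((q p / 4 : ℝ) * Real.cos (2 * t))
    simp only [norm_mul, norm_I, norm_real, Real.norm_eq_abs, one_mul, abs_of_nonneg s0,
      abs_of_pos (div_pos (q0 p) four_pos)] at this
    nlinarith [Real.abs_sin_le_one t, Real.abs_cos_le_one (2 * t), q0 p, q1 p,
      abs_nonneg (Real.sin t), abs_nonneg (Real.cos (2 * t))]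
  have w2 : ‖1 + w‖ ^ 2 = 1 + q p / 2 + (q p / 4 * Real.cos (2 * t)) ^ 2 := by
    rw [Complex.sq_norm, normSq_apply, hw]
    simp only [add_re, one_re, mul_re, I_re, ofReal_re, I_im, ofReal_im, mul_im, add_im, one_im]
    have := Real.cos_two_mul_eq_one_sub t
    rw [← s2]
    linear_combination (s ^ 2 / 2) * this
  have w3 : ‖(1 + w) * A p‖ ^ 2 = 1 - 3 / 8 * η ^ 2 +
      (q p / 4 * Real.cos (2 * t)) ^ 2 * ‖A p‖ ^ 2 := by
    rw [norm_mul, mul_pow, w2]; linear_combination (1 / 2) * qA p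
  have w4 : (q p / 4 * Real.cos (2 * t)) ^ 2 * ‖A p‖ ^ 2 ≤ η ^ 2 / 1000 := by
    have b1 : (q p / 4 * Real.cos (2 * t)) ^ 2 ≤ (q p / 4) ^ 2 := by
      rw [mul_pow]; exact mul_le_of_le_one_right (by positivity) (Real.cos_sq_le_one _)
    have b2 : (q p / 4) ^ 2 ≤ η ^ 2 / 1000 := by nlinarith [q0 p, q1 p]
    have b3 : ‖A p‖ ^ 2 ≤ 1 := by linarith [(hA p).2]
    exact (mul_le_of_le_one_right (by positivity) b3).trans (b1.trans b2)
  have w5 : 0 ≤ (q p / 4 * Real.cos (2 * t)) ^ 2 * ‖A p‖ ^ 2 := by positivity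
  refine ⟨by simpa using (g3 p).trans (by nlinarith), by simpa [fd] using a2, ?_, ?_, fun h => ?_⟩
  · have := norm_add_le (fderiv ℝ (f + G) p e - (1 + w) * A p) (w * A p)
    rw [norm_mul, show fderiv ℝ (f + G) p e - (1 + w) * A p + w * A p =
      fderiv ℝ (f + G) p e - fderiv ℝ f p e by simp only [hAd]; ring] at this
    nlinarith [norm_nonneg w]
  · have := nsq _ _ _ (by nlinarith [norm_nonneg ((1 + w) * A p)]) a3 (by linarith)
    rw [abs_le] at this ⊢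
    constructor <;> linarith [this.1, this.2]
  · refine ⟨1 + q p / 4, by linarith [q0 p], by linarith [q1 p], ?_⟩
    have b1 : Real.sin t = 0 := by rcases h with h | h <;> simp [t, h]
    have b2 : Real.cos (2 * t) = 1 := by rw [Real.cos_two_mul_eq_one_sub, b1]; simp
    rw [hw, b1, b2] at a3
    convert a3 using 3
    push_cast; ring

end Pool.Agent.H.MP_65e1c6_gt
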