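import Pool.Agent.H.MP_65e1c6_gt.A

open Set Complex Filter Topology
open scoped Real ContDiff

namespace Pool.Agent.H.MP_65e1c6_gt

noncomputable def ip (f : P → ℂ) (p : P) : ℝ := inner ℝ (fderiv ℝ f p (1, 0)) (fderiv ℝ f p (0, 1))

lemma ipp (x y x' y' : ℂ) (ρ ε : ℝ) (hx : ‖x'‖ ≤ 1) (hy : ‖y‖ ≤ 1) (h1 : ‖x' - ρ * x‖ ≤ ε)
    (h2 : ‖y' - y‖ ≤ ε) : |inner ℝ x' y' - ρ * inner ℝ x y| ≤ 2 * ε := by
  have e : inner ℝ x' y' - ρ * inner ℝ x y = inner ℝ x' (y' - y) + inner ℝ (x' - ρ * x) y := by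
    rw [← real_smul, inner_sub_left, inner_sub_right, real_inner_smul_left]; ring
  have a := abs_real_inner_le_norm x' (y' - y)
  have b := abs_real_inner_le_norm (x' - ρ * x) y
  have := abs_add_le (inner ℝ x' (y' - y)) (inner ℝ (x' - ρ * x) y)
  rw [e]
  nlinarith [norm_nonneg x', norm_nonneg y, norm_nonneg (y' - y), norm_nonneg (x' - ρ * x)]

def Inv (η : ℝ) (f : P → ℂ) : Prop := ContDiff ℝ ∞ f ∧ per (fderiv ℝ f) ∧
  (∀ p, (1 - 2 * η ^ 2 ≤ ‖fderiv ℝ f p (1, 0)‖ ^ 2 ∧ ‖fderiv ℝ f p (1, 0)‖ ^ 2 ≤ 1 - η ^ 2) ∧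
    (1 - 2 * η ^ 2 ≤ ‖fderiv ℝ f p (0, 1)‖ ^ 2 ∧ ‖fderiv ℝ f p (0, 1)‖ ^ 2 ≤ 1 - η ^ 2) ∧
    ‖fderiv ℝ f p (1, 0) - 1‖ ≤ 1 / 5 - 10 * η ∧ ‖fderiv ℝ f p (0, 1) - I‖ ≤ 1 / 5 - 10 * η) ∧
  |ip f (0, 0)| ≤ (1 / 10000 - η ^ 2) / 30 ∧ |ip f (π, 0)| ≤ (1 / 10000 - η ^ 2) / 30 ∧
  (1 / 10000 + η ^ 2) / 10 ≤ ip f (0, π) ∧ ip f (π, π) ≤ -((1 / 10000 + η ^ 2) / 10)

lemma tri (x y z : ℂ) {a b : ℝ} (h1 : ‖x - y‖ ≤ a) (h2 : ‖y - z‖ ≤ b) : ‖x - z‖ ≤ a + b :=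
  (norm_sub_le_norm_sub_add_norm_sub x y z).trans (add_le_add h1 h2)

lemma le1 {x : ℂ} (h : ‖x‖ ^ 2 ≤ 1) : ‖x‖ ≤ 1 := by nlinarith [norm_nonneg x]

lemma next (η : ℝ) (h0 : 0 < η) (h1 : η ≤ 1 / 100) (f : P → ℂ) (hf : Inv η f) :
    ∃ g, Inv (η / 2) g ∧ ∀ p, ‖g p - f p‖ ≤ 10 * η ∧ ‖fderiv ℝ g p - fderiv ℝ f p‖ ≤ 10 * η := by
  obtain ⟨c, pf, hA, i1, i2, i3, i4⟩ := hf
  have e2 : 0 < η ^ 2 := by positivity
  have e3 : η ^ 2 ≤ η / 100 := by nlinarith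
  have n1 : ‖((1, 0) : P)‖ ≤ 1 := by simp
  have n2 : ‖((0, 1) : P)‖ ≤ 1 := by simp
  obtain ⟨g, c1, p1, g1⟩ := step f c pf (ContinuousLinearMap.fst ℝ ℝ ℝ) (fun k φ h p => by
    simpa [mul_add] using h.nat_mul k _) (1, 0) (0, 1) n1 n2 rfl rfl η h0 h1
    fun p => ⟨by linarith [(hA p).1.1], by linarith [(hA p).1.2]⟩
  have gB : ∀ p, |‖fderiv ℝ g p (0, 1)‖ ^ 2 - ‖fderiv ℝ f p (0, 1)‖ ^ 2| ≤ 3 * (η ^ 2 / 1000) :=
    fun p => nsq _ _ _ (le1 (by linarith [(hA p).2.1.2])) (g1 p).2.1 (by linarith)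
  have gA : ∀ p, ‖fderiv ℝ g p (1, 0)‖ ≤ 1 := fun p =>
    le1 (by linarith [(abs_le.1 (g1 p).2.2.2.1).2])
  obtain ⟨h, c2, p2, g2⟩ := step g c1 p1 (ContinuousLinearMap.snd ℝ ℝ ℝ) (fun k φ h p => by
    simpa [mul_add] using h.nat_mul k _) (0, 1) (1, 0) n2 n1 rfl rfl η h0 h1
    fun p => ⟨by linarith [(hA p).2.1.1, (abs_le.1 (gB p)).1],
      by linarith [(hA p).2.1.2, (abs_le.1 (gB p)).2]⟩
  have dA : ∀ p, ‖fderiv ℝ h p (1, 0) - fderiv ℝ f p (1, 0)‖ ≤ 5 * η := fun p =>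
    (tri _ _ _ (g2 p).2.1 (g1 p).2.2.1).trans (by linarith)
  have dB : ∀ p, ‖fderiv ℝ h p (0, 1) - fderiv ℝ f p (0, 1)‖ ≤ 5 * η := fun p =>
    (tri _ _ _ (g2 p).2.2.1 (g1 p).2.1).trans (by linarith)
  have sp : ∀ p : P, (p.1 = 0 ∨ p.1 = π) → (p.2 = 0 ∨ p.2 = π) → ∃ ρ, 1 ≤ ρ ∧ ρ ≤ 1 + 5 * η ^ 2 ∧
      |ip h p - ρ * ip f p| ≤ η ^ 2 / 100 := fun p a b => by
    obtain ⟨r, r1, r2, r3⟩ := (g1 p).2.2.2.2 a
    obtain ⟨s, s1, s2, s3⟩ := (g2 p).2.2.2.2 b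
    have k1 := ipp _ _ _ _ _ _ (gA p) (le1 (by linarith [(hA p).2.1.2])) r3 (g1 p).2.1
    have k2 := ipp _ _ _ _ _ _ (le1 (by linarith [(abs_le.1 (g2 p).2.2.2.1).2])) (gA p) s3
      (g2 p).2.1
    rw [real_inner_comm, real_inner_comm (fderiv ℝ g p (1, 0))] at k2
    refine ⟨s * r, by nlinarith, by nlinarith, ?_⟩
    have : ip h p - s * r * ip f p = (ip h p - s * ip g p) + s * (ip g p - r * ip f p) := by ring
    rw [this]
    refine (abs_add_le _ _).trans ?_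
    rw [abs_mul, abs_of_pos (by linarith : 0 < s)]
    have k3 : s * |ip g p - r * ip f p| ≤ 2 * (2 * (η ^ 2 / 1000)) :=
      mul_le_mul (by linarith) k1 (abs_nonneg _) (by norm_num)
    have k4 : |ip h p - s * ip g p| ≤ 2 * (η ^ 2 / 1000) := k2
    linarith
  have s1 : ∀ x y ρ : ℝ, 1 ≤ ρ → ρ ≤ 1 + 5 * η ^ 2 → |y - ρ * x| ≤ η ^ 2 / 100 →
      |x| ≤ (1 / 10000 - η ^ 2) / 30 → |y| ≤ (1 / 10000 - (η / 2) ^ 2) / 30 := by
    intro x y ρ a b c d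
    have := abs_add_le (y - ρ * x) (ρ * x)
    rw [sub_add_cancel, abs_mul, abs_of_pos (by linarith : 0 < ρ)] at this
    have k : ρ * |x| ≤ (1 + 5 * η ^ 2) * ((1 / 10000 - η ^ 2) / 30) :=
      mul_le_mul b d (abs_nonneg _) (by positivity)
    nlinarith
  refine ⟨h, ⟨c2, p2, fun p => ?_, ?_, ?_, ?_, ?_⟩, fun p => ⟨(tri _ _ _ (g2 p).1 (g1 p).1).trans
    (by linarith), ContinuousLinearMap.opNorm_le_bound _ (by positivity) fun ⟨a, b⟩ => ?_⟩⟩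
  · have a := abs_le.1 (nsq _ _ _ (gA p) (g2 p).2.1 (by linarith))
    have b := abs_le.1 (g1 p).2.2.2.1
    have c := abs_le.1 (g2 p).2.2.2.1
    refine ⟨⟨by nlinarith, by nlinarith⟩, ⟨by nlinarith, by nlinarith⟩,
      (tri _ _ _ (dA p) (hA p).2.2.1).trans (by linarith),
      (tri _ _ _ (dB p) (hA p).2.2.2).trans (by linarith)⟩
  · obtain ⟨ρ, a, b, c⟩ := sp (0, 0) (.inl rfl) (.inl rfl)
    exact s1 _ _ _ a b c i1
  · obtain ⟨ρ, a, b, c⟩ := sp (π, 0) (.inr rfl) (.inl rfl)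
    exact s1 _ _ _ a b c i2
  · obtain ⟨ρ, a, b, c⟩ := sp (0, π) (.inl rfl) (.inr rfl)
    nlinarith [(abs_le.1 c).1]
  · obtain ⟨ρ, a, b, c⟩ := sp (π, π) (.inr rfl) (.inr rfl)
    nlinarith [(abs_le.1 c).2]
  · set L := fderiv ℝ h p - fderiv ℝ f p
    have e : L (a, b) = a • L (1, 0) + b • L (0, 1) := by
      rw [← map_smul, ← map_smul, ← map_add]; simp
    have k1 : ‖L (1, 0)‖ ≤ 5 * η := dA p
    have k2 : ‖L (0, 1)‖ ≤ 5 * η := dB p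
    have k3 : ‖a‖ ≤ ‖((a, b) : P)‖ := norm_fst_le ((a, b) : P)
    have k4 : ‖b‖ ≤ ‖((a, b) : P)‖ := norm_snd_le ((a, b) : P)
    have := norm_add_le (a • L (1, 0)) (b • L (0, 1))
    rw [norm_smul, norm_smul, ← e] at this
    nlinarith [norm_nonneg a, norm_nonneg b, norm_nonneg (L (1, 0)), norm_nonneg (L (0, 1))]

noncomputable def f0 (p : P) : ℂ :=
  (39997 / 40000 * p.1 : ℝ) + I * (39997 / 40000 * p.2 + 1 / 80000 * (Real.sin p.1 * (1 - Real.cos p.2)) : ℝ)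

lemma df0 (p v : P) : fderiv ℝ f0 p v = (39997 / 40000 * v.1 : ℝ) + I * (39997 / 40000 * v.2 +
    1 / 80000 * (Real.cos p.1 * (1 - Real.cos p.2) * v.1 + Real.sin p.1 * Real.sin p.2 * v.2) : ℝ) := by
  have a : HasFDerivAt (fun p : P => p.1) (ContinuousLinearMap.fst ℝ ℝ ℝ) p := hasFDerivAt_fst
  have b : HasFDerivAt (fun p : P => p.2) (ContinuousLinearMap.snd ℝ ℝ ℝ) p := hasFDerivAt_snd
  have d := ((ofRealCLM.hasFDerivAt.comp p (a.const_mul (39997 / 40000))).add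
    ((ofRealCLM.hasFDerivAt.comp p ((b.const_mul (39997 / 40000)).add
      ((a.sin.mul (b.cos.const_sub 1)).const_mul (1 / 80000)))).const_mul I)).fderiv
  unfold f0
  erw [d]
  simp
  ring

lemma inv0 : Inv (1 / 100) f0 := by
  have A : ∀ p : P, fderiv ℝ f0 p (1, 0) = ⟨39997 / 40000,
      1 / 80000 * (Real.cos p.1 * (1 - Real.cos p.2))⟩ := fun p => by
    rw [df0]; apply Complex.ext <;> simp [-ofReal_cos, -ofReal_sin]
  have B : ∀ p : P, fderiv ℝ f0 p (0, 1) = ⟨0,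
      39997 / 40000 + 1 / 80000 * (Real.sin p.1 * Real.sin p.2)⟩ := fun p => by
    rw [df0]; apply Complex.ext <;> simp [-ofReal_cos, -ofReal_sin]
  refine ⟨?_, fun p => ?_, fun p => ?_, ?_⟩
  · unfold f0
    have a : ContDiff ℝ ∞ fun p : P => (39997 / 40000 * p.1 : ℝ) := by fun_prop
    have b : ContDiff ℝ ∞ fun p : P =>
      (39997 / 40000 * p.2 + 1 / 80000 * (Real.sin p.1 * (1 - Real.cos p.2)) : ℝ) := by fun_prop
    exact (ofRealCLM.contDiff.comp a).add (contDiff_const.mul (ofRealCLM.contDiff.comp b))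
  · constructor <;> (refine ContinuousLinearMap.ext fun v => ?_; rw [df0, df0]; simp [-ofReal_cos, -ofReal_sin])
  · obtain ⟨x, hx, x1⟩ : ∃ x, x = Real.cos p.1 * (1 - Real.cos p.2) ∧ |x| ≤ 2 := ⟨_, rfl, by
      rw [abs_mul]
      have := abs_le.1 (Real.abs_cos_le_one p.2)
      have : |1 - Real.cos p.2| ≤ 2 := abs_le.2 ⟨by linarith, by linarith⟩
      nlinarith [Real.abs_cos_le_one p.1, abs_nonneg (Real.cos p.1), abs_nonneg (1 - Real.cos p.2)]⟩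
    obtain ⟨y, hy, y1⟩ : ∃ y, y = Real.sin p.1 * Real.sin p.2 ∧ |y| ≤ 1 := ⟨_, rfl, by
      rw [abs_mul]
      exact mul_le_one₀ (Real.abs_sin_le_one _) (abs_nonneg _) (Real.abs_sin_le_one _)⟩
    rw [A, B, ← hx, ← hy]
    rw [abs_le] at x1 y1
    simp only [Complex.sq_norm, normSq_apply]
    refine ⟨⟨by nlinarith, by nlinarith⟩, ⟨by nlinarith, by nlinarith⟩,
      (norm_le_abs_re_add_abs_im _).trans ?_, (norm_le_abs_re_add_abs_im _).trans ?_⟩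
    · simp only [sub_re, sub_im, one_re, one_im]
      have : |1 / 80000 * x - 0| ≤ 1 / 100 := abs_le.2 ⟨by linarith, by linarith⟩
      have : |(39997 / 40000 - 1 : ℝ)| ≤ 1 / 100 := abs_le.2 ⟨by linarith, by linarith⟩
      linarith
    · simp only [sub_re, sub_im, I_re, I_im, sub_zero, abs_zero]
      have : |39997 / 40000 + 1 / 80000 * y - 1| ≤ 1 / 100 := abs_le.2 ⟨by linarith, by linarith⟩
      linarith
  · simp only [ip, A, B, Complex.inner, mul_re, conj_re, conj_im]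
    norm_num

lemma conv (f : ℕ → P → ℂ) (u : ℕ → ℝ) (sm : Summable u) (hf : ∀ n, ContDiff ℝ 1 (f n))
    (b0 : ∀ n p, ‖f (n + 1) p - f n p‖ ≤ u n)
    (b2 : ∀ n p, ‖fderiv ℝ (f (n + 1)) p - fderiv ℝ (f n) p‖ ≤ u n) :
    ∃ F : P → ℂ, ContDiff ℝ 1 F ∧
      ∀ p v, Tendsto (fun n => fderiv ℝ (f n) p v) atTop (𝓝 (fderiv ℝ F p v)) := by
  have df : ∀ n, Differentiable ℝ (f n) := fun n => (hf n).differentiable (by simp)
  obtain ⟨d, hd⟩ : ∃ d : ℕ → P → ℂ, ∀ n, d n = f (n + 1) - f n := ⟨_, fun _ => rfl⟩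
  have fd : ∀ n p, fderiv ℝ (d n) p = fderiv ℝ (f (n + 1)) p - fderiv ℝ (f n) p :=
    fun n p => by rw [hd]; exact fderiv_sub (df (n + 1) p) (df n p)
  have b1 : ∀ n p, ‖fderiv ℝ (d n) p‖ ≤ u n := fun n p => by rw [fd]; exact b2 n p
  have b3 : ∀ n p, ‖d n p‖ ≤ u n := fun n p => by rw [hd]; exact b0 n p
  have cd : ∀ n, ContDiff ℝ 1 (d n) := fun n => by rw [hd]; exact (hf _).sub (hf _)
  have c1 : ContDiff ℝ 1 fun p => ∑' n, d n p :=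
    contDiff_tsum (N := 1) (v := fun _ n => u n) cd (fun _ _ => sm) fun k n p hk => by
      obtain rfl | rfl : k = 0 ∨ k = 1 := by
        have : k ≤ 1 := by exact_mod_cast hk
        omega
      · rw [norm_iteratedFDeriv_zero]; exact b3 n p
      · rw [norm_iteratedFDeriv_one]; exact b1 n p
  refine ⟨f 0 + fun p => ∑' n, d n p, (hf 0).add c1, fun p v => ?_⟩
  have a := (Summable.of_norm_bounded sm fun n => b1 n p).hasSum.tendsto_sum_nat.const_add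
    (fderiv ℝ (f 0) p)
  rw [← fderiv_tsum_apply sm (fun n => (cd n).differentiable (by simp)) b1
    (Summable.of_norm_bounded sm fun n => b3 n p),
    ← fderiv_add (df 0 p) (c1.differentiable (by simp) p)] at a
  simp only [fd, Finset.sum_range_sub (fun n => fderiv ℝ (f n) p), add_sub_cancel] at a
  exact ((ContinuousLinearMap.apply ℝ ℂ v).continuous.tendsto _).comp a

lemma lim : ∃ F : P → ℂ, ContDiff ℝ 1 F ∧ (∀ p, ‖fderiv ℝ F p (1, 0)‖ ^ 2 = 1 ∧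
    ‖fderiv ℝ F p (0, 1)‖ ^ 2 = 1 ∧ |ip F p| < 1) ∧ ip F (0, 0) < ip F (0, π) ∧
    ip F (π, π) < ip F (π, 0) := by
  obtain ⟨η, hη⟩ : ∃ η : ℕ → ℝ, η = fun n => 1 / 100 * (1 / 2) ^ n := ⟨_, rfl⟩
  have h0 : ∀ n, 0 < η n := fun n => by rw [hη]; positivity
  have h1 : ∀ n, η n ≤ 1 / 100 := fun n => by
    rw [hη]; exact mul_le_of_le_one_right (by norm_num) (pow_le_one₀ (by norm_num) (by norm_num))
  have h2 : ∀ n, η n / 2 = η (n + 1) := fun n => by simp only [hη]; ring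
  choose! G G1 G2 using fun n => next (η n) (h0 n) (h1 n)
  obtain ⟨f, fz, fs⟩ : ∃ f : ℕ → P → ℂ, f 0 = f0 ∧ ∀ n, f (n + 1) = G n (f n) :=
    ⟨fun n => Nat.rec f0 G n, rfl, fun _ => rfl⟩
  have I : ∀ n, Inv (η n) (f n) := fun n => by
    induction n with
    | zero => rw [show η 0 = 1 / 100 by simp [hη], fz]; exact inv0
    | succ n ih => rw [← h2, fs]; exact G1 n _ ih
  have sm : Summable fun n => 10 * η n := by
    rw [hη]; exact (summable_geometric_two.mul_left _).mul_left _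
  obtain ⟨F, cF, T⟩ := conv f _ sm (fun n => (I n).1.of_le (by simp))
    (fun n p => by rw [fs]; exact (G2 n _ (I n) p).1) fun n p => by rw [fs]; exact (G2 n _ (I n) p).2
  have Ti : ∀ p, Tendsto (fun n => ip (f n) p) atTop (𝓝 (ip F p)) := fun p => (T p _).inner (T p _)
  have Tη : Tendsto (fun n => η n ^ 2) atTop (𝓝 0) := by
    have := ((tendsto_pow_atTop_nhds_zero_of_lt_one (r := (1 / 2 : ℝ)) (by norm_num)
      (by norm_num)).const_mul (1 / 100)).pow 2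
    rw [mul_zero, zero_pow two_ne_zero] at this
    rw [hη]; exact this
  have one : ∀ p v, (∀ n, 1 - 2 * η n ^ 2 ≤ ‖fderiv ℝ (f n) p v‖ ^ 2 ∧
      ‖fderiv ℝ (f n) p v‖ ^ 2 ≤ 1 - η n ^ 2) → ‖fderiv ℝ F p v‖ ^ 2 = 1 := fun p v h => by
    have a := le_of_tendsto_of_tendsto' ((Tη.const_mul 2).const_sub 1) ((T p v).norm.pow 2)
      fun n => (h n).1
    have b := le_of_tendsto_of_tendsto' ((T p v).norm.pow 2) (Tη.const_sub 1) fun n => (h n).2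
    linarith
  have sq : ∀ n, 0 ≤ η n ^ 2 := fun n => sq_nonneg _
  refine ⟨F, cF, fun p => ?_, ?_, ?_⟩
  · have a := one p _ fun n => ((I n).2.2.1 p).1
    have b := one p _ fun n => ((I n).2.2.1 p).2.1
    have c : ‖fderiv ℝ F p (1, 0) - 1‖ ≤ 1 / 5 := le_of_tendsto' ((T p _).sub_const 1).norm
      fun n => by linarith [((I n).2.2.1 p).2.2.1, h0 n]
    have d : ‖fderiv ℝ F p (0, 1) - Complex.I‖ ≤ 1 / 5 := le_of_tendsto' ((T p _).sub_const _).norm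
      fun n => by linarith [((I n).2.2.1 p).2.2.2, h0 n]
    have := ipp 1 Complex.I _ _ 1 _ (le1 a.le) (by simp) (by simpa using c) d
    refine ⟨a, b, ?_⟩
    simp only [Complex.inner, map_one, mul_one, I_re, mul_zero, sub_zero] at this
    simp only [ip, Complex.inner]
    linarith
  · have a : ip F (0, 0) ≤ 1 / 10000 / 30 := le_of_tendsto' (Ti _) fun n => by
      linarith [(abs_le.1 (I n).2.2.2.1).2, sq n]
    have b : 1 / 10000 / 10 ≤ ip F (0, π) := ge_of_tendsto' (Ti _) fun n => by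
      linarith [(I n).2.2.2.2.2.1, sq n]
    linarith
  · have a : -(1 / 10000 / 30) ≤ ip F (π, 0) := ge_of_tendsto' (Ti _) fun n => by
      linarith [(abs_le.1 (I n).2.2.2.2.1).1, sq n]
    have b : ip F (π, π) ≤ -(1 / 10000 / 10) := le_of_tendsto' (Ti _) fun n => by
      linarith [(I n).2.2.2.2.2.2, sq n]
    linarith

lemma glob (w : P → ℝ) (h : ∀ p, ∃ U ∈ 𝓝 p, ∃ g h : ℝ → ℝ, ∀ q ∈ U, w q = g q.1 + h q.2)
    (a b c d : ℝ) : w (a, d) - w (a, c) = w (b, d) - w (b, c) := by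
  refine ((IsLocallyConstant.iff_eventually_eq fun u => w (u, d) - w (u, c)).2
    fun u => ?_).apply_eq_of_preconnectedSpace a b
  have k := ((IsLocallyConstant.iff_eventually_eq fun v =>
    ∀ᶠ x in 𝓝 u, w (x, v) - w (x, c) = w (u, v) - w (u, c)).2
    fun v => ?_).apply_eq_of_preconnectedSpace c d
  · exact k ▸ Eventually.of_forall fun x => by simp
  obtain ⟨U, hU, g, k, e⟩ := h (u, v)
  obtain ⟨A, hA, B, hB, s⟩ := mem_nhds_prod_iff.1 hU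
  filter_upwards [hB] with y hy
  refine propext (eventually_congr ?_)
  filter_upwards [hA] with x hx
  rw [e (x, y) (s ⟨hx, hy⟩), e (u, y) (s ⟨mem_of_mem_nhds hA, hy⟩),
    e (x, v) (s ⟨hx, mem_of_mem_nhds hB⟩), e (u, v) (mem_of_mem_nhds hU)]
  constructor <;> intro <;> linarith

end Pool.Agent.H.MP_65e1c6_gt
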